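import Mathlib

set_option autoImplicit false

/-!
The algebra `V ⊕ G ⊕ G ⊕ F`.
-/

universe u

namespace Pool.Agent.H659

variable {F : Type u} [Field F] {V : Type u} [AddCommGroup V] [Module F V]
  {G : Type u} [Ring G] [Algebra F G]

/-- underlying space `V ⊕ G ⊕ G ⊕ F` -/
@[ext] structure MAlg (ι : V →ₗ[F] G) (I : G →ₗ[F] F) : Type u where
  v : V
  g : G
  h : G
  s : F

namespace MAlg

variable {ι : V →ₗ[F] G} {I : G →ₗ[F] F}

/-- equivalence with the product -/
def toProd : MAlg ι I ≃ V × G × G × F where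
  toFun x := (x.v, x.g, x.h, x.s)
  invFun y := ⟨y.1, y.2.1, y.2.2.1, y.2.2.2⟩
  left_inv _ := rfl
  right_inv _ := rfl

instance : AddCommGroup (MAlg ι I) := toProd.addCommGroup

instance : Module F (MAlg ι I) := toProd.module F

@[simp] lemma add_v (x y : MAlg ι I) : (x + y).v = x.v + y.v := rfl
@[simp] lemma add_g (x y : MAlg ι I) : (x + y).g = x.g + y.g := rfl
@[simp] lemma add_h (x y : MAlg ι I) : (x + y).h = x.h + y.h := rfl
@[simp] lemma add_s (x y : MAlg ι I) : (x + y).s = x.s + y.s := rfl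
@[simp] lemma sub_v (x y : MAlg ι I) : (x - y).v = x.v - y.v := rfl
@[simp] lemma sub_g (x y : MAlg ι I) : (x - y).g = x.g - y.g := rfl
@[simp] lemma sub_h (x y : MAlg ι I) : (x - y).h = x.h - y.h := rfl
@[simp] lemma sub_s (x y : MAlg ι I) : (x - y).s = x.s - y.s := rfl
@[simp] lemma zero_v : (0 : MAlg ι I).v = 0 := rfl
@[simp] lemma zero_g : (0 : MAlg ι I).g = 0 := rfl
@[simp] lemma zero_h : (0 : MAlg ι I).h = 0 := rfl
@[simp] lemma zero_s : (0 : MAlg ι I).s = 0 := rfl
@[simp] lemma smul_v (c : F) (x : MAlg ι I) : (c • x).v = c • x.v := rfl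
@[simp] lemma smul_g (c : F) (x : MAlg ι I) : (c • x).g = c • x.g := rfl
@[simp] lemma smul_h (c : F) (x : MAlg ι I) : (c • x).h = c • x.h := rfl
@[simp] lemma smul_s (c : F) (x : MAlg ι I) : (c • x).s = c • x.s := rfl

instance : Mul (MAlg ι I) where
  mul x y := ⟨0, x.g * ι y.v + y.g * ι x.v,
    x.g * y.g + y.g * x.g + (ι y.v * x.h + ι x.v * y.h),
    I (x.h * y.g + y.h * x.g)⟩

@[simp] lemma mul_v (x y : MAlg ι I) : (x * y).v = 0 := rfl
@[simp] lemma mul_g (x y : MAlg ι I) : (x * y).g = x.g * ι y.v + y.g * ι x.v := rfl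
@[simp] lemma mul_h (x y : MAlg ι I) :
    (x * y).h = x.g * y.g + y.g * x.g + (ι y.v * x.h + ι x.v * y.h) := rfl
@[simp] lemma mul_s (x y : MAlg ι I) : (x * y).s = I (x.h * y.g + y.h * x.g) := rfl

instance : NonUnitalNonAssocRing (MAlg ι I) where
  __ := (inferInstance : AddCommGroup (MAlg ι I))
  mul := (· * ·)
  left_distrib a b c := by
    apply MAlg.ext
    · change (0 : V) = 0 + 0
      simp
    · change a.g * ι (b + c).v + (b + c).g * ι a.v =
        (a.g * ι b.v + b.g * ι a.v) + (a.g * ι c.v + c.g * ι a.v)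
      simp only [add_v, add_g, map_add, mul_add, add_mul]; abel
    · change a.g * (b + c).g + (b + c).g * a.g + (ι (b + c).v * a.h + ι a.v * (b + c).h) =
        (a.g * b.g + b.g * a.g + (ι b.v * a.h + ι a.v * b.h)) +
        (a.g * c.g + c.g * a.g + (ι c.v * a.h + ι a.v * c.h))
      simp only [add_v, add_g, add_h, map_add, mul_add, add_mul]; abel
    · change I (a.h * (b + c).g + (b + c).h * a.g) =
        I (a.h * b.g + b.h * a.g) + I (a.h * c.g + c.h * a.g)
      simp only [add_g, add_h, map_add, mul_add, add_mul]; abel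
  right_distrib a b c := by
    apply MAlg.ext
    · change (0 : V) = 0 + 0
      simp
    · change (a + b).g * ι c.v + c.g * ι (a + b).v =
        (a.g * ι c.v + c.g * ι a.v) + (b.g * ι c.v + c.g * ι b.v)
      simp only [add_v, add_g, map_add, mul_add, add_mul]; abel
    · change (a + b).g * c.g + c.g * (a + b).g + (ι c.v * (a + b).h + ι (a + b).v * c.h) =
        (a.g * c.g + c.g * a.g + (ι c.v * a.h + ι a.v * c.h)) +
        (b.g * c.g + c.g * b.g + (ι c.v * b.h + ι b.v * c.h))
      simp only [add_v, add_g, add_h, map_add, mul_add, add_mul]; abel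
    · change I ((a + b).h * c.g + c.h * (a + b).g) =
        I (a.h * c.g + c.h * a.g) + I (b.h * c.g + c.h * b.g)
      simp only [add_g, add_h, map_add, mul_add, add_mul]; abel
  zero_mul a := by
    apply MAlg.ext
    · rfl
    · change (0 : G) * ι a.v + a.g * ι (0 : V) = 0
      simp
    · change (0 : G) * a.g + a.g * 0 + (ι a.v * 0 + ι (0 : V) * a.h) = 0
      simp
    · change I ((0 : G) * a.g + a.h * 0) = 0
      simp
  mul_zero a := by
    apply MAlg.ext
    · rfl
    · change a.g * ι (0 : V) + (0 : G) * ι a.v = 0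
      simp
    · change a.g * (0 : G) + 0 * a.g + (ι (0 : V) * a.h + ι a.v * 0) = 0
      simp
    · change I (a.h * (0 : G) + 0 * a.g) = 0
      simp

instance : IsScalarTower F (MAlg ι I) (MAlg ι I) where
  smul_assoc c a b := by
    apply MAlg.ext
    · change (0 : V) = c • (0 : V)
      simp
    · change (c • a).g * ι b.v + b.g * ι (c • a).v = c • (a.g * ι b.v + b.g * ι a.v)
      simp only [smul_g, smul_v, map_smul, smul_mul_assoc, mul_smul_comm, smul_add]
    · change (c • a).g * b.g + b.g * (c • a).g + (ι b.v * (c • a).h + ι (c • a).v * b.h) =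
        c • (a.g * b.g + b.g * a.g + (ι b.v * a.h + ι a.v * b.h))
      simp only [smul_g, smul_v, smul_h, map_smul, smul_mul_assoc, mul_smul_comm, smul_add]
    · change I ((c • a).h * b.g + b.h * (c • a).g) = c • I (a.h * b.g + b.h * a.g)
      simp only [smul_g, smul_h, smul_mul_assoc, mul_smul_comm, map_add, map_smul, smul_add]

instance : SMulCommClass F (MAlg ι I) (MAlg ι I) where
  smul_comm c a b := by
    apply MAlg.ext
    · change c • (0 : V) = 0
      simp
    · change c • (a.g * ι b.v + b.g * ι a.v) = a.g * ι (c • b).v + (c • b).g * ι a.v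
      simp only [smul_g, smul_v, map_smul, smul_mul_assoc, mul_smul_comm, smul_add]
    · change c • (a.g * b.g + b.g * a.g + (ι b.v * a.h + ι a.v * b.h)) =
        a.g * (c • b).g + (c • b).g * a.g + (ι (c • b).v * a.h + ι a.v * (c • b).h)
      simp only [smul_g, smul_v, smul_h, map_smul, smul_mul_assoc, mul_smul_comm, smul_add]
    · change c • I (a.h * b.g + b.h * a.g) = I (a.h * (c • b).g + (c • b).h * a.g)
      simp only [smul_g, smul_h, smul_mul_assoc, mul_smul_comm, map_add, map_smul, smul_add]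

lemma mul_comm' (x y : MAlg ι I) : x * y = y * x := by
  apply MAlg.ext
  · rfl
  · simp only [mul_g]; abel
  · simp only [mul_h]; abel
  · simp only [mul_s]; rw [add_comm]

/-- the hypotheses on `ι`, `I` and the ring `G` -/
structure Good (ι : V →ₗ[F] G) (I : G →ₗ[F] F) : Prop where
  anti : ∀ v w : V, ι v * ι w + ι w * ι v = 0
  sym : ∀ x y z : G, x * y * z + y * x * z + (y * z * x + z * y * x) + (z * x * y + x * z * y) = 0
  cyc : ∀ (v : V) (x : G), I (ι v * x + x * ι v) = 0

lemma jacobi (hG : Good ι I) (x y z : MAlg ι I) : (x * y) * z + (y * z) * x + (z * x) * y = 0 := by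
  apply MAlg.ext
  · simp
  · simp only [add_g, mul_g, mul_v, map_zero, mul_zero, add_zero, zero_g]
    have h1 := hG.anti y.v z.v
    have h2 := hG.anti x.v z.v
    have h3 := hG.anti x.v y.v
    have e : (x.g * ι y.v + y.g * ι x.v) * ι z.v + (y.g * ι z.v + z.g * ι y.v) * ι x.v +
      (z.g * ι x.v + x.g * ι z.v) * ι y.v =
      x.g * (ι y.v * ι z.v + ι z.v * ι y.v) + y.g * (ι x.v * ι z.v + ι z.v * ι x.v) +
      z.g * (ι x.v * ι y.v + ι y.v * ι x.v) := by noncomm_ring
    rw [e, h1, h2, h3]; simp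
  · simp only [add_h, mul_h, mul_g, mul_v, map_zero, zero_mul, add_zero, zero_h]
    have h1 := hG.anti y.v z.v
    have h2 := hG.anti x.v z.v
    have h3 := hG.anti x.v y.v
    have s1 := hG.sym (ι x.v) y.g z.g
    have s2 := hG.sym (ι y.v) x.g z.g
    have s3 := hG.sym (ι z.v) x.g y.g
    have e : ∀ (vx vy vz gx gy gz hx hy hz : G),
      (gx * vy + gy * vx) * gz + gz * (gx * vy + gy * vx) +
        vz * (gx * gy + gy * gx + (vy * hx + vx * hy)) +
      ((gy * vz + gz * vy) * gx + gx * (gy * vz + gz * vy) +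
        vx * (gy * gz + gz * gy + (vz * hy + vy * hz))) +
      ((gz * vx + gx * vz) * gy + gy * (gz * vx + gx * vz) +
        vy * (gz * gx + gx * gz + (vx * hz + vz * hx))) =
      (vx * gy * gz + gy * vx * gz + (gy * gz * vx + gz * gy * vx) + (gz * vx * gy + vx * gz * gy)) +
      (vy * gx * gz + gx * vy * gz + (gx * gz * vy + gz * gx * vy) + (gz * vy * gx + vy * gz * gx)) +
      (vz * gx * gy + gx * vz * gy + (gx * gy * vz + gy * gx * vz) + (gy * vz * gx + vz * gy * gx)) +
      ((vy * vz + vz * vy) * hx + (vx * vz + vz * vx) * hy + (vx * vy + vy * vx) * hz) := by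
      intros; noncomm_ring
    rw [e, h1, h2, h3, s1, s2, s3]; simp
  · simp only [add_s, mul_s, mul_h, mul_g, zero_s, ← map_add]
    have s1 := hG.sym x.g y.g z.g
    have c1 := hG.cyc x.v (y.h * z.g)
    have c2 := hG.cyc x.v (z.h * y.g)
    have c3 := hG.cyc y.v (x.h * z.g)
    have c4 := hG.cyc y.v (z.h * x.g)
    have c5 := hG.cyc z.v (x.h * y.g)
    have c6 := hG.cyc z.v (y.h * x.g)
    have e : ∀ (vx vy vz gx gy gz hx hy hz : G),
      (gx * gy + gy * gx + (vy * hx + vx * hy)) * gz + hz * (gx * vy + gy * vx) +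
      ((gy * gz + gz * gy + (vz * hy + vy * hz)) * gx + hx * (gy * vz + gz * vy)) +
      ((gz * gx + gx * gz + (vx * hz + vz * hx)) * gy + hy * (gz * vx + gx * vz)) =
      (gx * gy * gz + gy * gx * gz + (gy * gz * gx + gz * gy * gx) + (gz * gx * gy + gx * gz * gy)) +
      ((vx * (hy * gz) + (hy * gz) * vx) + (vx * (hz * gy) + (hz * gy) * vx) +
      (vy * (hx * gz) + (hx * gz) * vy) + (vy * (hz * gx) + (hz * gx) * vy) +
      (vz * (hx * gy) + (hx * gy) * vz) + (vz * (hy * gx) + (hy * gx) * vz)) := by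
      intros; noncomm_ring
    rw [e, s1, zero_add]
    simp only [map_add] at *
    linear_combination c1 + c2 + c3 + c4 + c5 + c6

end MAlg

end Pool.Agent.H659
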