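import Mathlib
import Pool.Agent.H659.MAlg

set_option autoImplicit false

/-!
Exterior algebra over a field of characteristic three.
-/

universe u

namespace Pool.Agent.H659

open CliffordAlgebra

section

variable {F : Type u} [Field F] {V : Type u} [AddCommGroup V] [Module F V]

/-- the main involution -/
noncomputable def al : ExteriorAlgebra F V →ₐ[F] ExteriorAlgebra F V :=
  CliffordAlgebra.involute (Q := (0 : QuadraticForm F V))

lemma al_ι (v : V) : al (ExteriorAlgebra.ι F v) = - ExteriorAlgebra.ι F v :=
  CliffordAlgebra.involute_ι v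

lemma al_al (x : ExteriorAlgebra F V) : al (al x) = x :=
  CliffordAlgebra.involute_involute x

lemma ι_anti (v w : V) : ExteriorAlgebra.ι F v * ExteriorAlgebra.ι F w +
    ExteriorAlgebra.ι F w * ExteriorAlgebra.ι F v = 0 :=
  ExteriorAlgebra.ι_add_mul_swap v w

lemma ι_anti' (v w : V) : ExteriorAlgebra.ι F v * ExteriorAlgebra.ι F w =
    - (ExteriorAlgebra.ι F w * ExteriorAlgebra.ι F v) :=
  eq_neg_of_add_eq_zero_left (ι_anti v w)

lemma mul_ι_al (x : ExteriorAlgebra F V) (v : V) :
    x * ExteriorAlgebra.ι F v = ExteriorAlgebra.ι F v * al x := by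
  induction x using ExteriorAlgebra.induction with
  | algebraMap r => rw [AlgHom.commutes]; exact Algebra.commutes r _
  | ι w => rw [al_ι, ι_anti' w v, mul_neg]
  | mul a b ha hb => rw [mul_assoc, hb, ← mul_assoc, ha, mul_assoc, map_mul]
  | add a b ha hb => rw [add_mul, ha, hb, map_add, mul_add]

lemma even_central {x : ExteriorAlgebra F V} (hx : al x = x) (y : ExteriorAlgebra F V) :
    x * y = y * x := by
  induction y using ExteriorAlgebra.induction with
  | algebraMap r => exact (Algebra.commutes r _).symm
  | ι w => rw [mul_ι_al, hx]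
  | mul a b ha hb => rw [← mul_assoc, ha, mul_assoc, hb, mul_assoc]
  | add a b ha hb => rw [add_mul, mul_add, ha, hb]

lemma odd_comm {x : ExteriorAlgebra F V} (hx : al x = -x) (y : ExteriorAlgebra F V) :
    x * y = al y * x := by
  induction y using ExteriorAlgebra.induction with
  | algebraMap r => rw [AlgHom.commutes]; exact (Algebra.commutes r _).symm
  | ι w => rw [mul_ι_al, hx, al_ι, mul_neg, neg_mul]
  | mul a b ha hb => rw [← mul_assoc, ha, mul_assoc, hb, ← mul_assoc, map_mul]
  | add a b ha hb => rw [mul_add, map_add, add_mul, ha, hb]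

variable [CharP F 3]

lemma three_eq_zero : (3 : ExteriorAlgebra F V) = 0 := by
  have h : (3 : F) = 0 := by
    have := CharP.cast_eq_zero F 3
    simpa using this
  have h2 := congrArg (algebraMap F (ExteriorAlgebra F V)) h
  rw [map_ofNat, map_zero] at h2
  exact h2

omit [CharP F 3] in
lemma al_sub (x : ExteriorAlgebra F V) : al (x - al x) = -(x - al x) := by
  rw [map_sub, al_al]; abel

omit [CharP F 3] in
lemma al_add (x : ExteriorAlgebra F V) : al (x + al x) = x + al x := by
  rw [map_add, al_al]; abel

/-- commutator formula -/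
lemma comm_eq (x y : ExteriorAlgebra F V) : x * y - y * x = 2 * ((x - al x) * (y - al y)) := by
  -- decompose `x = -(x + al x) - (x - al x)`
  have h3 := three_eq_zero (F := F) (V := V)
  set p := x + al x with hp
  set q := x - al x with hq
  set r := y - al y with hr
  have hx : x = -p - q := by
    have : x - (-p - q) = 3 * x := by rw [hp, hq]; noncomm_ring
    rw [h3, zero_mul] at this
    exact sub_eq_zero.1 this
  have e1 : p * y = y * p := even_central (al_add x) y
  have e2 : q * y = al y * q := odd_comm (al_sub x) y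
  have e3 : q * r = - (r * q) := by
    rw [odd_comm (al_sub x) r, hr, al_sub y, neg_mul]
  have e4 : x * y - y * x = (al y * (-1) + y) * q := by
    conv_lhs => rw [hx]
    have : (-p - q) * y - y * (-p - q) = -(p * y) + y * p + (-(q * y) + y * q) := by
      noncomm_ring
    rw [this, e1, e2]; noncomm_ring
  rw [e4]
  have e5 : (al y * (-1) + y) * q = r * q := by rw [hr]; noncomm_ring
  rw [e5, e3]
  have : r * q - 2 * -(r * q) = 3 * (r * q) := by noncomm_ring
  rw [h3, zero_mul] at this
  exact sub_eq_zero.1 this

lemma comm_central (x y z : ExteriorAlgebra F V) :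
    (x * y - y * x) * z = z * (x * y - y * x) := by
  apply even_central
  rw [comm_eq, map_mul, map_mul, al_sub, al_sub]
  have : al (2 : ExteriorAlgebra F V) = 2 := map_ofNat al 2
  rw [this]; noncomm_ring

lemma sym_zero (x y z : ExteriorAlgebra F V) :
    x * y * z + y * x * z + (y * z * x + z * y * x) + (z * x * y + x * z * y) = 0 := by
  have h3 := three_eq_zero (F := F) (V := V)
  have cB := comm_central x z y
  have cC := comm_central y z x
  have e : x * y * z + y * x * z + (y * z * x + z * y * x) + (z * x * y + x * z * y) =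
      3 * (2 * (x * y * z) - (x * y - y * x) * z - y * (x * z - z * x) - x * (y * z - z * y))
      + (y * (x * z - z * x) - (x * z - z * x) * y) + (x * (y * z - z * y) - (y * z - z * y) * x) := by
    noncomm_ring
  rw [e, cB, cC, h3]; simp

lemma sym3 (x y : ExteriorAlgebra F V) : x * x * y + x * y * x + y * x * x = 0 := by
  have h3 := three_eq_zero (F := F) (V := V)
  have h := sym_zero x x y
  have e : x * x * y + x * y * x + y * x * x =
    3 * (x * x * y + x * y * x + y * x * x) -
     (x * x * y + x * x * y + (x * y * x + y * x * x) + (y * x * x + x * y * x)) := by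
    noncomm_ring
  rw [e, h, h3]; simp

/-- cubes are scalars -/
lemma cube_scalar (g : ExteriorAlgebra F V) :
    ∃ s : F, g * g * g = algebraMap F (ExteriorAlgebra F V) s := by
  induction g using CliffordAlgebra.left_induction with
  | algebraMap r => exact ⟨r * r * r, by rw [map_mul, map_mul]⟩
  | add x y hx hy =>
    obtain ⟨s, hs⟩ := hx
    obtain ⟨t, ht⟩ := hy
    refine ⟨s + t, ?_⟩
    have h1 := sym3 (F := F) (V := V) x y
    have h2 := sym3 (F := F) (V := V) y x
    rw [map_add, ← hs, ← ht]
    have e : (x + y) * (x + y) * (x + y) = x * x * x + y * y * y +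
      (x * x * y + x * y * x + y * x * x) + (y * y * x + y * x * y + x * y * y) := by
      noncomm_ring
    rw [e, h1, h2]; abel
  | ι_mul x m hx =>
    refine ⟨0, ?_⟩
    rw [map_zero]
    have e1 : x * ExteriorAlgebra.ι F m = ExteriorAlgebra.ι F m * al x := mul_ι_al x m
    have e2 : ExteriorAlgebra.ι F m * ExteriorAlgebra.ι F m = 0 := ExteriorAlgebra.ι_sq_zero m
    change ExteriorAlgebra.ι F m * x * (ExteriorAlgebra.ι F m * x) * (ExteriorAlgebra.ι F m * x) = 0
    have e3 : ExteriorAlgebra.ι F m * x * (ExteriorAlgebra.ι F m * x) = 0 := by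
      calc ExteriorAlgebra.ι F m * x * (ExteriorAlgebra.ι F m * x)
          = ExteriorAlgebra.ι F m * (x * ExteriorAlgebra.ι F m) * x := by noncomm_ring
        _ = (ExteriorAlgebra.ι F m * ExteriorAlgebra.ι F m) * (al x) * x := by
            rw [e1]; noncomm_ring
        _ = 0 := by rw [e2]; simp
    rw [e3, zero_mul]

end

section integral

variable (F : Type u) [Field F] (n : ℕ)

/-- The Berezin integral: coefficient of `e₁ ∧ … ∧ eₙ`. -/
noncomputable def bint : ExteriorAlgebra F (Fin n → F) →ₗ[F] F :=
  ExteriorAlgebra.liftAlternating (R := F) (M := Fin n → F) (N := F)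
    (Pi.single n (Matrix.detRowAlternating (R := F) (n := Fin n)))

variable {F n}

lemma bint_ιMulti_self (v : Fin n → (Fin n → F)) :
    bint F n (ExteriorAlgebra.ιMulti F n v) = Matrix.det (Matrix.of v) := by
  rw [bint, ExteriorAlgebra.liftAlternating_apply_ιMulti, Pi.single_eq_same]
  rfl

lemma bint_ιMulti_ne {m : ℕ} (hm : m ≠ n) (v : Fin m → (Fin n → F)) :
    bint F n (ExteriorAlgebra.ιMulti F m v) = 0 := by
  rw [bint, ExteriorAlgebra.liftAlternating_apply_ιMulti, Pi.single_eq_of_ne hm]
  rfl

lemma al_ιMulti {m : ℕ} (v : Fin m → (Fin n → F)) :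
    al (ExteriorAlgebra.ιMulti F m v) = (-1 : F) ^ m • ExteriorAlgebra.ιMulti F m v := by
  rw [ExteriorAlgebra.ιMulti_apply]
  have h := CliffordAlgebra.involute_prod_map_ι (Q := (0 : QuadraticForm F (Fin n → F)))
    (List.ofFn v)
  rw [List.map_ofFn, List.length_ofFn] at h
  exact h

lemma bint_al (hn : Even n) (x : ExteriorAlgebra F (Fin n → F)) :
    bint F n (al x) = bint F n x := by
  have h : (bint F n) ∘ₗ (al (F := F) (V := Fin n → F)).toLinearMap = bint F n := by
    apply ExteriorAlgebra.lhom_ext
    intro m
    ext v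
    change bint F n (al (ExteriorAlgebra.ιMulti F m v)) = bint F n (ExteriorAlgebra.ιMulti F m v)
    rw [al_ιMulti, map_smul]
    by_cases hm : m = n
    · subst hm
      rw [hn.neg_one_pow, one_smul]
    · rw [bint_ιMulti_ne hm, smul_zero]
  exact LinearMap.congr_fun h x

lemma bint_cyc [CharP F 3] (hn : Even n) (v : Fin n → F) (x : ExteriorAlgebra F (Fin n → F)) :
    bint F n (ExteriorAlgebra.ι F v * x + x * ExteriorAlgebra.ι F v) = 0 := by
  rw [mul_ι_al, ← mul_add]
  set y := ExteriorAlgebra.ι F v * (x + al x) with hy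
  have h1 : al y = -y := by rw [hy, map_mul, al_ι, al_add, neg_mul]
  have h2 : bint F n y = - bint F n y := by
    conv_lhs => rw [← bint_al hn y, h1, map_neg]
  have h3 : (3 : F) = 0 := by
    have := CharP.cast_eq_zero F 3
    simpa using this
  linear_combination 2 * h2 - (bint F n y) * h3

lemma good_bint [CharP F 3] (hn : Even n) :
    MAlg.Good (ExteriorAlgebra.ι F : (Fin n → F) →ₗ[F] _) (bint F n) where
  anti := ι_anti
  sym := sym_zero
  cyc := bint_cyc hn

end integral

end Pool.Agent.H659
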