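import Mathlib

set_option autoImplicit false

/-!
Varieties of nonassociative algebras over a field: basic definitions.
-/

universe u

namespace Pool.Agent.H659

/-- Nonassociative polynomials over `F` in the variables `x₀, x₁, x₂, …`: the elements of the free
nonassociative (nonunital) `F`-algebra of countable rank. -/
abbrev NAPoly (F : Type u) [Field F] : Type u := FreeNonUnitalNonAssocAlgebra F ℕ

/-- The (not necessarily associative, not necessarily unital) `F`-algebra `A` satisfies the
identity `f`: every substitution of elements of `A` for the variables sends `f` to `0`. -/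
def Satisfies (F : Type u) [Field F] (A : Type u) [NonUnitalNonAssocRing A] [Module F A]
    [IsScalarTower F A A] [SMulCommClass F A A] (f : NAPoly F) : Prop :=
  ∀ v : ℕ → A, FreeNonUnitalNonAssocAlgebra.lift F v f = 0

/-- The algebra `A` belongs to the variety defined by the set `S` of identities. -/
def InVariety {F : Type u} [Field F] (S : Set (NAPoly F)) (A : Type u) [NonUnitalNonAssocRing A]
    [Module F A] [IsScalarTower F A A] [SMulCommClass F A A] : Prop :=
  ∀ f ∈ S, Satisfies F A f

/-- The variety defined by the set `S` of identities is finitely based: it is also defined by a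
finite set `T` of identities. -/
def FinitelyBased {F : Type u} [Field F] (S : Set (NAPoly F)) : Prop :=
  ∃ T : Set (NAPoly F), T.Finite ∧
    ∀ (A : Type u) [NonUnitalNonAssocRing A] [Module F A] [IsScalarTower F A A]
      [SMulCommClass F A A], InVariety T A ↔ InVariety S A

/-- The derived series `D 0 = A`, `D (k + 1) = D k · D k` (the span of all products of two
elements of `D k`) of a nonassociative algebra. -/
def derivedSeries (F : Type u) [Field F] (A : Type u) [NonUnitalNonAssocRing A] [Module F A] :
    ℕ → Submodule F A
  | 0 => ⊤
  | k + 1 => Submodule.span F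
      {z | ∃ x ∈ derivedSeries F A k, ∃ y ∈ derivedSeries F A k, z = x * y}

/-- A T-ideal of the free nonassociative algebra: a two-sided ideal stable under all
endomorphisms. -/
structure IsTIdeal {F : Type u} [Field F] (J : Submodule F (NAPoly F)) : Prop where
  mul_left : ∀ f g : NAPoly F, g ∈ J → f * g ∈ J
  mul_right : ∀ f g : NAPoly F, f ∈ J → f * g ∈ J
  endo : ∀ (φ : NAPoly F →ₙₐ[F] NAPoly F) (f : NAPoly F), f ∈ J → φ f ∈ J

/-- The set of all identities of the variety defined by `S`. -/
def identitiesOf {F : Type u} [Field F] (S : Set (NAPoly F)) : Set (NAPoly F) :=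
  {f | ∀ (A : Type u) [NonUnitalNonAssocRing A] [Module F A] [IsScalarTower F A A]
      [SMulCommClass F A A], InVariety S A → Satisfies F A f}

/-- The set of identities of the variety defined by `S` is generated, as a T-ideal, by finitely
many polynomials. -/
def TIdealFG {F : Type u} [Field F] (S : Set (NAPoly F)) : Prop :=
  ∃ T : Set (NAPoly F), T.Finite ∧ T ⊆ identitiesOf S ∧
    ∀ J : Submodule F (NAPoly F), IsTIdeal J → T ⊆ J → identitiesOf S ⊆ J

end Pool.Agent.H659
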