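import Mathlib
import Pool.Agent.H659.Defs

set_option autoImplicit false

/-!
General facts on varieties of nonassociative algebras: T-ideals, relatively free algebras and the
compactness argument for infinitely based varieties.
-/

universe u

namespace Pool.Agent.H659

open FreeNonUnitalNonAssocAlgebra

noncomputable section general

variable {F : Type u} [Field F]

/-- membership in the T-ideal generated by `S` -/
inductive InT (S : Set (NAPoly F)) : NAPoly F → Prop
  | subst (φ : NAPoly F →ₙₐ[F] NAPoly F) (f : NAPoly F) (hf : f ∈ S) : InT S (φ f)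
  | zero : InT S 0
  | add (f g : NAPoly F) : InT S f → InT S g → InT S (f + g)
  | smul (c : F) (f : NAPoly F) : InT S f → InT S (c • f)
  | mul_left (f g : NAPoly F) : InT S g → InT S (f * g)
  | mul_right (f g : NAPoly F) : InT S f → InT S (f * g)

lemma satisfies_iff_hom (A : Type u) [NonUnitalNonAssocRing A] [Module F A]
    [IsScalarTower F A A] [SMulCommClass F A A] (f : NAPoly F) :
    Satisfies F A f ↔ ∀ ψ : NAPoly F →ₙₐ[F] A, ψ f = 0 := by
  constructor
  · intro h ψ
    have := h (ψ ∘ of F)
    rwa [lift_comp_of] at this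
  · intro h v
    exact h _

lemma InT.satisfies {S : Set (NAPoly F)} {f : NAPoly F} (hf : InT S f) (A : Type u)
    [NonUnitalNonAssocRing A] [Module F A]
    [IsScalarTower F A A] [SMulCommClass F A A] (hA : InVariety S A) : Satisfies F A f := by
  rw [satisfies_iff_hom]
  induction hf with
  | subst φ f hf =>
    intro ψ
    have := (satisfies_iff_hom A f).1 (hA f hf) (ψ.comp φ)
    simpa using this
  | zero => intro ψ; exact map_zero ψ
  | add f g _ _ ihf ihg => intro ψ; rw [map_add, ihf, ihg, add_zero]
  | smul c f _ ih => intro ψ; rw [map_smul, ih, smul_zero]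
  | mul_left f g _ ih => intro ψ; rw [map_mul, ih, mul_zero]
  | mul_right f g _ ih => intro ψ; rw [map_mul, ih, zero_mul]

lemma InT.mono {S S' : Set (NAPoly F)} (h : S ⊆ S') {f : NAPoly F} (hf : InT S f) : InT S' f := by
  induction hf with
  | subst φ f hf => exact .subst φ f (h hf)
  | zero => exact .zero
  | add f g _ _ ihf ihg => exact .add _ _ ihf ihg
  | smul c f _ ih => exact .smul _ _ ih
  | mul_left f g _ ih => exact .mul_left _ _ ih
  | mul_right f g _ ih => exact .mul_right _ _ ih

lemma InT.iUnion {S : ℕ → Set (NAPoly F)} (hS : Monotone S) {f : NAPoly F}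
    (hf : InT (⋃ j, S j) f) : ∃ j, InT (S j) f := by
  induction hf with
  | subst φ f hf =>
    obtain ⟨j, hj⟩ := Set.mem_iUnion.1 hf
    exact ⟨j, .subst φ f hj⟩
  | zero => exact ⟨0, .zero⟩
  | add f g _ _ ihf ihg =>
    obtain ⟨i, hi⟩ := ihf
    obtain ⟨j, hj⟩ := ihg
    exact ⟨max i j, .add _ _ (hi.mono (hS (le_max_left _ _))) (hj.mono (hS (le_max_right _ _)))⟩
  | smul c f _ ih => obtain ⟨i, hi⟩ := ih; exact ⟨i, .smul _ _ hi⟩
  | mul_left f g _ ih => obtain ⟨i, hi⟩ := ih; exact ⟨i, .mul_left _ _ hi⟩
  | mul_right f g _ ih => obtain ⟨i, hi⟩ := ih; exact ⟨i, .mul_right _ _ hi⟩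

/-- the T-ideal as a submodule -/
def tSub (S : Set (NAPoly F)) : Submodule F (NAPoly F) where
  carrier := {f | InT S f}
  add_mem' := fun ha hb => .add _ _ ha hb
  zero_mem' := .zero
  smul_mem' := fun c _ h => .smul c _ h

/-- relatively free algebra -/
def RelFree (S : Set (NAPoly F)) : Type u := NAPoly F ⧸ tSub S

instance (S : Set (NAPoly F)) : AddCommGroup (RelFree S) :=
  inferInstanceAs (AddCommGroup (NAPoly F ⧸ tSub S))

instance (S : Set (NAPoly F)) : Module F (RelFree S) :=
  inferInstanceAs (Module F (NAPoly F ⧸ tSub S))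

/-- quotient map (linear) -/
def rmk (S : Set (NAPoly F)) : NAPoly F →ₗ[F] RelFree S := (tSub S).mkQ

lemma rmk_surj (S : Set (NAPoly F)) : Function.Surjective (rmk S) := Submodule.mkQ_surjective _

lemma rmk_eq_zero (S : Set (NAPoly F)) (f : NAPoly F) : rmk S f = 0 ↔ InT S f := by
  exact Submodule.Quotient.mk_eq_zero (tSub S)

lemma rmk_eq (S : Set (NAPoly F)) (f g : NAPoly F) : rmk S f = rmk S g ↔ InT S (f - g) := by
  rw [← rmk_eq_zero, map_sub, sub_eq_zero]

instance (S : Set (NAPoly F)) : Mul (RelFree S) where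
  mul := Quotient.map₂ (· * ·) (by
    intro a a' h b b' h'
    have h1 : InT S (a - a') := (rmk_eq S a a').1 (Quotient.sound h)
    have h2 : InT S (b - b') := (rmk_eq S b b').1 (Quotient.sound h')
    have h3 : InT S (a * b - a' * b') := by
      have e : a * b - a' * b' = (a - a') * b + a' * (b - b') := by
        rw [sub_mul, mul_sub]; abel
      rw [e]
      exact .add _ _ (.mul_right _ _ h1) (.mul_left _ _ h2)
    exact Quotient.exact ((rmk_eq S _ _).2 h3))

lemma rmk_mul (S : Set (NAPoly F)) (f g : NAPoly F) : rmk S (f * g) = rmk S f * rmk S g := rfl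

instance (S : Set (NAPoly F)) : NonUnitalNonAssocRing (RelFree S) where
  __ := (inferInstance : AddCommGroup (RelFree S))
  mul := (· * ·)
  left_distrib a b c := by
    obtain ⟨a, rfl⟩ := rmk_surj S a
    obtain ⟨b, rfl⟩ := rmk_surj S b
    obtain ⟨c, rfl⟩ := rmk_surj S c
    have := congrArg (rmk S) (mul_add a b c)
    rw [rmk_mul, map_add, map_add, rmk_mul, rmk_mul] at this
    exact this
  right_distrib a b c := by
    obtain ⟨a, rfl⟩ := rmk_surj S a
    obtain ⟨b, rfl⟩ := rmk_surj S b
    obtain ⟨c, rfl⟩ := rmk_surj S c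
    have := congrArg (rmk S) (add_mul a b c)
    rw [rmk_mul, map_add, map_add, rmk_mul, rmk_mul] at this
    exact this
  zero_mul a := by
    obtain ⟨a, rfl⟩ := rmk_surj S a
    have := congrArg (rmk S) (zero_mul a)
    rw [rmk_mul, map_zero] at this
    exact this
  mul_zero a := by
    obtain ⟨a, rfl⟩ := rmk_surj S a
    have := congrArg (rmk S) (mul_zero a)
    rw [rmk_mul, map_zero] at this
    exact this

instance (S : Set (NAPoly F)) : IsScalarTower F (RelFree S) (RelFree S) where
  smul_assoc c a b := by
    obtain ⟨a, rfl⟩ := rmk_surj S a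
    obtain ⟨b, rfl⟩ := rmk_surj S b
    have := congrArg (rmk S) (smul_mul_assoc c a b)
    rw [rmk_mul, map_smul, map_smul, rmk_mul] at this
    exact this

instance (S : Set (NAPoly F)) : SMulCommClass F (RelFree S) (RelFree S) where
  smul_comm c a b := by
    obtain ⟨a, rfl⟩ := rmk_surj S a
    obtain ⟨b, rfl⟩ := rmk_surj S b
    have := congrArg (rmk S) (mul_smul_comm c a b)
    rw [rmk_mul, map_smul, map_smul, rmk_mul] at this
    exact this.symm

/-- quotient map as a homomorphism -/
def rhom (S : Set (NAPoly F)) : NAPoly F →ₙₐ[F] RelFree S :=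
  { rmk S with
    map_zero' := map_zero (rmk S)
    map_mul' := rmk_mul S }

lemma rhom_apply (S : Set (NAPoly F)) (f : NAPoly F) : rhom S f = rmk S f := rfl

lemma relFree_inVariety (S : Set (NAPoly F)) : InVariety S (RelFree S) := by
  intro f hf v
  choose w hw using fun i => rmk_surj S (v i)
  have e : FreeNonUnitalNonAssocAlgebra.lift F v = (rhom S).comp (FreeNonUnitalNonAssocAlgebra.lift F w) := by
    apply hom_ext
    intro i
    rw [lift_of_apply, NonUnitalAlgHom.comp_apply, lift_of_apply, rhom_apply, hw]
  rw [e, NonUnitalAlgHom.comp_apply, rhom_apply, rmk_eq_zero]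
  exact .subst _ _ hf

/-- compactness: if `S` is an increasing union of sets `S j` such that for every `j` some algebra
satisfies `S j` but not `S`, then the variety of `S` is not finitely based. -/
theorem not_finitelyBased {S : ℕ → Set (NAPoly F)} (hS : Monotone S)
    (A : ℕ → Type u) [∀ j, NonUnitalNonAssocRing (A j)] [∀ j, Module F (A j)]
    [∀ j, IsScalarTower F (A j) (A j)] [∀ j, SMulCommClass F (A j) (A j)]
    (h1 : ∀ j, InVariety (S j) (A j)) (h2 : ∀ j, ¬ InVariety (⋃ j, S j) (A j)) :
    ¬ FinitelyBased (⋃ j, S j) := by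
  rintro ⟨T, hT, hT'⟩
  have h3 : ∀ t ∈ T, ∃ j, InT (S j) t := by
    intro t ht
    have h := (hT' (RelFree (⋃ j, S j))).2 (relFree_inVariety _) t ht
    have h' := (satisfies_iff_hom _ t).1 h (rhom _)
    rw [rhom_apply, rmk_eq_zero] at h'
    exact h'.iUnion hS
  have h4 : ∃ j, ∀ t ∈ T, InT (S j) t := by
    clear hT'
    induction T, hT using Set.Finite.induction_on with
    | empty => exact ⟨0, fun t ht => absurd ht (Set.notMem_empty t)⟩
    | @insert a s ha hs ih =>
      obtain ⟨i, hi⟩ := ih (fun t ht => h3 t (Set.mem_insert_of_mem _ ht))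
      obtain ⟨j, hj⟩ := h3 a (Set.mem_insert _ _)
      refine ⟨max i j, fun t ht => ?_⟩
      rcases Set.mem_insert_iff.1 ht with rfl | ht
      · exact hj.mono (hS (le_max_right _ _))
      · exact (hi t ht).mono (hS (le_max_left _ _))
  obtain ⟨j, hj⟩ := h4
  apply h2 j
  rw [← hT' (A j)]
  intro t ht
  exact (hj t ht).satisfies (A j) (h1 j)

/-- if the T-ideal of identities is finitely generated, the variety is finitely based -/
theorem finitelyBased_of_tIdealFG {S : Set (NAPoly F)} (h : TIdealFG S) : FinitelyBased S := by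
  obtain ⟨T, hT, hTS, hJ⟩ := h
  refine ⟨T, hT, ?_⟩
  intro A _ _ _ _
  constructor
  · intro hA
    let J : Submodule F (NAPoly F) :=
      { carrier := {f | Satisfies F A f}
        add_mem' := fun {a b} ha hb v => by
          have h1 := ha v
          have h2 := hb v
          rw [map_add, h1, h2, add_zero]
        zero_mem' := fun v => map_zero _
        smul_mem' := fun c x hx v => by
          have h1 := hx v
          rw [map_smul, h1, smul_zero] }
    have hJT : IsTIdeal J :=
      { mul_left := fun f g hg v => by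
          have h1 : FreeNonUnitalNonAssocAlgebra.lift F v g = 0 := hg v
          rw [map_mul, h1, mul_zero]
        mul_right := fun f g hf v => by
          have h1 : FreeNonUnitalNonAssocAlgebra.lift F v f = 0 := hf v
          rw [map_mul, h1, zero_mul]
        endo := fun φ f hf v => by
          have h1 := (satisfies_iff_hom A f).1 hf
            ((FreeNonUnitalNonAssocAlgebra.lift F v).comp φ)
          simpa using h1 }
    have h1 := hJ J hJT (fun t ht => hA t ht)
    intro f hf
    exact h1 (fun B _ _ _ _ hB => hB f hf)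
  · intro hA t ht
    exact hTS ht A hA

end general

end Pool.Agent.H659
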