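import Mathlib
import Pool.Agent.H659.VarBasis
import Pool.Agent.H659.Grass

set_option autoImplicit false

universe u w

namespace Pool.Agent.H659

/-- `rn z u s m = (…((u z_s) z_{s+1}) … ) z_{s+m-1}` -/
def rn {M : Type w} [Mul M] (z : ℕ → M) : M → ℕ → ℕ → M
  | u, _, 0 => u
  | u, s, m + 1 => rn z (u * z s) (s + 1) m

/-- the polynomial, evaluated in an algebra -/
def fval {M : Type w} [NonUnitalNonAssocRing M] (u : M) (z : ℕ → M) (k : ℕ) : M :=
  (rn z u 0 (2 * k + 2) * rn z u (2 * k + 2) (2 * k + 2)) *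
      rn z u (2 * (2 * k + 2)) (2 * k + 2)
  - (rn z (u * u) 1 (2 * k + 1) *
      rn z (z 0 * z (2 * k + 2)) (2 * k + 2 + 1) (2 * k + 1)) *
      rn z u (2 * (2 * k + 2)) (2 * k + 2)
  - (rn z (u * u) 1 (2 * k + 1) * rn z u (2 * k + 2) (2 * k + 2)) *
      rn z (z 0 * z (2 * (2 * k + 2))) (2 * (2 * k + 2) + 1) (2 * k + 1)

section hom
variable {F : Type u} [Field F]

lemma map_rn {A B : Type u} [NonUnitalNonAssocRing A] [Module F A]
    [NonUnitalNonAssocRing B] [Module F B]
    (φ : A →ₙₐ[F] B) (z : ℕ → A) (x : A) (s m : ℕ) :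
    φ (rn z x s m) = rn (fun i => φ (z i)) (φ x) s m := by
  induction m generalizing x s with
  | zero => rfl
  | succ m ih =>
    rw [rn, rn, ih, map_mul]

lemma map_fval {A B : Type u} [NonUnitalNonAssocRing A] [Module F A]
    [NonUnitalNonAssocRing B] [Module F B]
    (φ : A →ₙₐ[F] B) (z : ℕ → A) (x : A) (k : ℕ) :
    φ (fval x z k) = fval (φ x) (fun i => φ (z i)) k := by
  unfold fval
  simp only [map_sub, map_mul, map_rn]

/-- the identity `f_k` -/
noncomputable def fpoly (F : Type u) [Field F] (k : ℕ) : NAPoly F :=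
  fval (FreeNonUnitalNonAssocAlgebra.of F 0) (fun i => FreeNonUnitalNonAssocAlgebra.of F (i + 1)) k

lemma satisfies_fpoly (A : Type u) [NonUnitalNonAssocRing A] [Module F A]
    [IsScalarTower F A A] [SMulCommClass F A A] (k : ℕ) :
    Satisfies F A (fpoly F k) ↔ ∀ (x : A) (z : ℕ → A), fval x z k = 0 := by
  constructor
  · intro h x z
    have := h (fun i => Nat.casesOn i x z)
    rw [fpoly, map_fval] at this
    simpa [FreeNonUnitalNonAssocAlgebra.lift_of_apply] using this
  · intro h v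
    rw [fpoly, map_fval]
    exact h _ _

end hom

section general

variable {F : Type u} [Field F] {V : Type u} [AddCommGroup V] [Module F V]
  {G : Type u} [Ring G] [Algebra F G] {ι : V →ₗ[F] G} {I : G →ₗ[F] F}

/-- products of letters -/
def pr (c : ℕ → G) : ℕ → ℕ → G
  | _, 0 => 1
  | s, m + 1 => c s * pr c (s + 1) m

lemma rn_v (z : ℕ → MAlg ι I) (x : MAlg ι I) (hx : x.v = 0) (s m : ℕ) :
    (rn z x s m).v = 0 := by
  induction m generalizing x s with
  | zero => exact hx
  | succ m ih => rw [rn]; exact ih _ rfl _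

lemma rn_g (z : ℕ → MAlg ι I) (x : MAlg ι I) (hx : x.v = 0) (s m : ℕ) :
    (rn z x s m).g = x.g * pr (fun i => ι (z i).v) s m := by
  induction m generalizing x s with
  | zero => rw [rn, pr, mul_one]
  | succ m ih =>
    rw [rn, ih _ rfl, pr, MAlg.mul_g, hx, map_zero, mul_zero, add_zero, mul_assoc]

lemma rn_v' (z : ℕ → MAlg ι I) (x : MAlg ι I) (s m : ℕ) :
    (rn z x s (m + 1)).v = 0 := by
  rw [rn]; exact rn_v z _ rfl _ _

lemma rn_g' (z : ℕ → MAlg ι I) (x : MAlg ι I) (s m : ℕ) :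
    (rn z x s (m + 1)).g =
      (x.g * ι (z s).v + (z s).g * ι x.v) * pr (fun i => ι (z i).v) (s + 1) m := by
  rw [rn, rn_g z _ rfl, MAlg.mul_g]

/-- triple product of elements without `V` part -/
lemma triple (P Q R : MAlg ι I) (hP : P.v = 0) (hQ : Q.v = 0) (hR : R.v = 0) :
    (P * Q) * R = ⟨0, 0, 0, I ((P.g * Q.g + Q.g * P.g) * R.g)⟩ := by
  apply MAlg.ext
  · rfl
  · simp [hP, hQ, hR]
  · simp [hP, hQ, hR]
  · simp [hP, hQ]

end general

end Pool.Agent.H659
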