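import Mathlib
import Pool.Agent.H659.Eval

set_option autoImplicit false

universe u w

namespace Pool.Agent.H659

section key

variable {G : Type u} [Ring G]

/-- symmetrised triple product -/
def T3 (x y z : G) : G := (x * y + y * x) * z

lemma T3_add1 (x x' y z : G) : T3 (x + x') y z = T3 x y z + T3 x' y z := by
  unfold T3; noncomm_ring

lemma T3_add2 (x y y' z : G) : T3 x (y + y') z = T3 x y z + T3 x y' z := by
  unfold T3; noncomm_ring

lemma T3_add3 (x y z z' : G) : T3 x y (z + z') = T3 x y z + T3 x y z' := by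
  unfold T3; noncomm_ring

lemma T3_comm (x y z : G) : T3 x y z = T3 y x z := by
  unfold T3; noncomm_ring

lemma T3_central (x y z A B C : G) (hA : ∀ w, A * w = w * A) (hB : ∀ w, B * w = w * B) :
    T3 (x * A) (y * B) (z * C) = T3 x y z * (A * B * C) := by
  unfold T3
  have e1 : x * A * (y * B) = x * y * (A * B) := by
    rw [mul_assoc x A, ← mul_assoc A y B, hA y]; noncomm_ring
  have e2 : y * B * (x * A) = y * x * (A * B) := by
    rw [mul_assoc y B, ← mul_assoc B x A, hB x, mul_assoc x B A, hB A]; noncomm_ring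
  rw [e1, e2, ← add_mul]
  have e3 : (x * y + y * x) * (A * B) * (z * C) = (x * y + y * x) * (A * (B * z) * C) := by
    noncomm_ring
  rw [e3, hB z, ← mul_assoc A z B, hA z]; noncomm_ring

lemma key (g g0 g1 g2 A A0 B B0 B' C C0 C' : G) (h3 : (3 : G) = 0)
    (hA : ∀ w, A * w = w * A) (hA0 : ∀ w, A0 * w = w * A0)
    (hB : ∀ w, B * w = w * B) (hB0 : ∀ w, B0 * w = w * B0) (hB' : ∀ w, B' * w = w * B')
    (hAB : A * B = 0) (hAC : A * C = 0) (hBC : B * C = 0)
    (hAB' : A * B' = -(A0 * B)) (hAC' : A * C' = -(A0 * C))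
    (hsym : g0 * g * g + g * g0 * g + g * g * g0 = 0) :
    T3 (g * A0 + g0 * A) (g * B0 + g1 * B) (g * C0 + g2 * C)
      - T3 (g * A + g * A) (g0 * B0 + g1 * B') (g * C0 + g2 * C)
      - T3 (g * A + g * A) (g * B0 + g1 * B) (g0 * C0 + g2 * C')
      = (g * g * g + g * g * g) * (A0 * B0 * C0) := by
  simp only [T3_add1, T3_add2, T3_add3]
  rw [T3_central _ _ _ A0 B0 C0 hA0 hB0, T3_central _ _ _ A0 B0 C hA0 hB0,
    T3_central _ _ _ A0 B C0 hA0 hB, T3_central _ _ _ A0 B C hA0 hB,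
    T3_central _ _ _ A B0 C0 hA hB0, T3_central _ _ _ A B0 C hA hB0,
    T3_central _ _ _ A B C0 hA hB, T3_central _ _ _ A B C hA hB,
    T3_central _ _ _ A B0 C0 hA hB0, T3_central _ _ _ A B0 C hA hB0,
    T3_central _ _ _ A B' C0 hA hB', T3_central _ _ _ A B' C hA hB',
    T3_central _ _ _ A B0 C0 hA hB0, T3_central _ _ _ A B0 C' hA hB0,
    T3_central _ _ _ A B C0 hA hB, T3_central _ _ _ A B C' hA hB]
  have c1 : A0 * B * C = 0 := by rw [mul_assoc, hBC, mul_zero]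
  have c2 : A * B0 * C = 0 := by rw [hA B0, mul_assoc, hAC, mul_zero]
  have c3 : A * B * C0 = 0 := by rw [hAB, zero_mul]
  have c4 : A * B * C = 0 := by rw [hAB, zero_mul]
  have c5 : A * B' * C0 = -(A0 * B * C0) := by rw [hAB', neg_mul]
  have c6 : A * B' * C = 0 := by rw [hAB', neg_mul, c1, neg_zero]
  have c7 : A * B0 * C' = -(A0 * B0 * C) := by
    rw [hA B0, mul_assoc, hAC', mul_neg, ← mul_assoc, ← hA0 B0]
  have c8 : A * B * C' = 0 := by rw [hAB, zero_mul]
  rw [c1, c2, c3, c4, c5, c6, c7, c8]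
  have e : ∀ X : G, X = X - 3 * X := by intro X; rw [h3, zero_mul, sub_zero]
  have t1 : T3 g0 g g - (T3 g g0 g + T3 g g0 g) - (T3 g g g0 + T3 g g g0) = 0 := by
    have : T3 g0 g g - (T3 g g0 g + T3 g g0 g) - (T3 g g g0 + T3 g g g0) =
        2 * (g0 * g * g + g * g0 * g + g * g * g0) - 3 * (g0 * g * g + g * g0 * g + 2 * (g * g * g0)) := by
      unfold T3; noncomm_ring
    rw [this, hsym, h3]; simp
  have t2 : T3 g g1 g + (T3 g g1 g + T3 g g1 g) = 0 := by
    have : T3 g g1 g + (T3 g g1 g + T3 g g1 g) = 3 * T3 g g1 g := by noncomm_ring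
    rw [this, h3, zero_mul]
  have t3 : T3 g g g2 + (T3 g g g2 + T3 g g g2) = 0 := by
    have : T3 g g g2 + (T3 g g g2 + T3 g g g2) = 3 * T3 g g g2 := by noncomm_ring
    rw [this, h3, zero_mul]
  have t4 : T3 g g g = g * g * g + g * g * g := by unfold T3; noncomm_ring
  have main : T3 g g g * (A0 * B0 * C0) +
      (T3 g0 g g - (T3 g g0 g + T3 g g0 g) - (T3 g g g0 + T3 g g g0)) * (A * B0 * C0) +
      (T3 g g1 g + (T3 g g1 g + T3 g g1 g)) * (A0 * B * C0) +
      (T3 g g g2 + (T3 g g g2 + T3 g g g2)) * (A0 * B0 * C) =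
      (g * g * g + g * g * g) * (A0 * B0 * C0) := by
    rw [t1, t2, t3, t4]; simp
  rw [← main]
  noncomm_ring

end key

section ext

variable {F : Type u} [Field F] [CharP F 3] {n : ℕ}

omit [CharP F 3] in
lemma al_pr (z : ℕ → (Fin n → F)) (s m : ℕ) :
    al (pr (fun i => ExteriorAlgebra.ι F (z i)) s m) =
      (-1 : F) ^ m • pr (fun i => ExteriorAlgebra.ι F (z i)) s m := by
  induction m generalizing s with
  | zero => simp [pr]
  | succ m ih =>
    rw [pr, map_mul, ih, al_ι, pow_succ]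
    simp

omit [CharP F 3] in
lemma al_pr_odd (z : ℕ → (Fin n → F)) (s k : ℕ) :
    al (pr (fun i => ExteriorAlgebra.ι F (z i)) s (2 * k + 1)) =
      - pr (fun i => ExteriorAlgebra.ι F (z i)) s (2 * k + 1) := by
  rw [al_pr, Odd.neg_one_pow ⟨k, rfl⟩, neg_one_smul]

omit [CharP F 3] in
lemma odd_anti {x y : ExteriorAlgebra F (Fin n → F)} (hx : al x = -x) (hy : al y = -y) :
    x * y = -(y * x) := by
  rw [odd_comm hx y, hy, neg_mul]

omit [CharP F 3] in
lemma prod_central {x y : ExteriorAlgebra F (Fin n → F)} (hx : al x = -x) (hy : al y = -y)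
    (w : ExteriorAlgebra F (Fin n → F)) : x * y * w = w * (x * y) := by
  apply even_central
  rw [map_mul, hx, hy, neg_mul_neg]

omit [CharP F 3] in
lemma pr_add {G : Type w} [Ring G] (c : ℕ → G) (s m m' : ℕ) :
    pr c s (m + m') = pr c s m * pr c (s + m) m' := by
  induction m generalizing s with
  | zero => simp [pr]
  | succ m ih =>
    rw [Nat.succ_add, pr, pr, ih, mul_assoc, Nat.add_right_comm, Nat.add_assoc s m 1]

lemma fval_eq (u : MAlg (ExteriorAlgebra.ι F : (Fin n → F) →ₗ[F] ExteriorAlgebra F (Fin n → F)) (bint F n))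
    (z : ℕ → MAlg (ExteriorAlgebra.ι F : (Fin n → F) →ₗ[F] ExteriorAlgebra F (Fin n → F)) (bint F n)) (k : ℕ) :
    fval u z k = ⟨0, 0, 0, bint F n ((u.g * u.g * u.g + u.g * u.g * u.g) *
      pr (fun i => ExteriorAlgebra.ι F (z i).v) 0 (3 * (2 * k + 2)))⟩ := by
  unfold fval
  have hK : 2 * k + 2 = (2 * k + 1) + 1 := rfl
  rw [triple (rn z u 0 (2 * k + 2)) (rn z u (2 * k + 2) (2 * k + 2))
      (rn z u (2 * (2 * k + 2)) (2 * k + 2)) (rn_v' _ _ _ _) (rn_v' _ _ _ _) (rn_v' _ _ _ _),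
    triple (rn z (u * u) 1 (2 * k + 1)) (rn z (z 0 * z (2 * k + 2)) (2 * k + 2 + 1) (2 * k + 1))
      (rn z u (2 * (2 * k + 2)) (2 * k + 2)) (rn_v' _ _ _ _) (rn_v' _ _ _ _) (rn_v' _ _ _ _),
    triple (rn z (u * u) 1 (2 * k + 1)) (rn z u (2 * k + 2) (2 * k + 2))
      (rn z (z 0 * z (2 * (2 * k + 2))) (2 * (2 * k + 2) + 1) (2 * k + 1))
      (rn_v' _ _ _ _) (rn_v' _ _ _ _) (rn_v' _ _ _ _)]
  set c : ℕ → ExteriorAlgebra F (Fin n → F) := fun i => ExteriorAlgebra.ι F (z i).v with hc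
  set v : ExteriorAlgebra F (Fin n → F) := ExteriorAlgebra.ι F u.v with hv
  set Ω1 := pr c 1 (2 * k + 1) with hΩ1
  set Ω2 := pr c (2 * k + 2 + 1) (2 * k + 1) with hΩ2
  set Ω3 := pr c (2 * (2 * k + 2) + 1) (2 * k + 1) with hΩ3
  have g1 : (rn z u 0 (2 * k + 2)).g = u.g * (c 0 * Ω1) + (z 0).g * (v * Ω1) := by
    have := rn_g' z u 0 (2 * k + 1)
    rw [this]; simp only [← mul_assoc, ← add_mul]; rfl
  have g2 : (rn z u (2 * k + 2) (2 * k + 2)).g =
      u.g * (c (2 * k + 2) * Ω2) + (z (2 * k + 2)).g * (v * Ω2) := by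
    have := rn_g' z u (2 * k + 2) (2 * k + 1)
    rw [this]; simp only [← mul_assoc, ← add_mul]; rfl
  have g3 : (rn z u (2 * (2 * k + 2)) (2 * k + 2)).g =
      u.g * (c (2 * (2 * k + 2)) * Ω3) + (z (2 * (2 * k + 2))).g * (v * Ω3) := by
    have := rn_g' z u (2 * (2 * k + 2)) (2 * k + 1)
    rw [this]; simp only [← mul_assoc, ← add_mul]; rfl
  have g4 : (rn z (u * u) 1 (2 * k + 1)).g = u.g * (v * Ω1) + u.g * (v * Ω1) := by
    have := rn_g z (u * u) rfl 1 (2 * k + 1)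
    rw [this, MAlg.mul_g]; simp only [← mul_assoc, ← add_mul]; rfl
  have g5 : (rn z (z 0 * z (2 * k + 2)) (2 * k + 2 + 1) (2 * k + 1)).g =
      (z 0).g * (c (2 * k + 2) * Ω2) + (z (2 * k + 2)).g * (c 0 * Ω2) := by
    have := rn_g z (z 0 * z (2 * k + 2)) rfl (2 * k + 2 + 1) (2 * k + 1)
    rw [this, MAlg.mul_g]; simp only [← mul_assoc, ← add_mul]; rfl
  have g6 : (rn z (z 0 * z (2 * (2 * k + 2))) (2 * (2 * k + 2) + 1) (2 * k + 1)).g =
      (z 0).g * (c (2 * (2 * k + 2)) * Ω3) + (z (2 * (2 * k + 2))).g * (c 0 * Ω3) := by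
    have := rn_g z (z 0 * z (2 * (2 * k + 2))) rfl (2 * (2 * k + 2) + 1) (2 * k + 1)
    rw [this, MAlg.mul_g]; simp only [← mul_assoc, ← add_mul]; rfl
  have oc : ∀ i, al (c i) = - c i := fun i => al_ι _
  have ov : al v = -v := al_ι _
  have o1 : al Ω1 = -Ω1 := al_pr_odd _ _ _
  have o2 : al Ω2 = -Ω2 := al_pr_odd _ _ _
  have o3 : al Ω3 = -Ω3 := al_pr_odd _ _ _
  have vv : v * v = 0 := ExteriorAlgebra.ι_sq_zero _
  have vXv : ∀ X Y : ExteriorAlgebra F (Fin n → F), al X = -X → (v * X) * (v * Y) = 0 := by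
    intro X Y hX
    have : v * X = -(X * v) := odd_anti ov hX
    rw [this, neg_mul, mul_assoc, ← mul_assoc v v Y, vv, zero_mul, mul_zero, neg_zero]
  have swap : ∀ X Y a : ExteriorAlgebra F (Fin n → F), al X = -X → al a = -a → (v * X) * (a * Y) = -((a * X) * (v * Y)) := by
    intro X Y a hX ha
    have e1 : v * X = -(X * v) := odd_anti ov hX
    have e2 : v * a = -(a * v) := odd_anti ov ha
    have e3 : a * X = -(X * a) := odd_anti ha hX
    rw [e1, e3]
    have : -(X * v) * (a * Y) = -(X * (v * a) * Y) := by noncomm_ring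
    rw [this, e2]; noncomm_ring
  have K := key u.g (z 0).g (z (2 * k + 2)).g (z (2 * (2 * k + 2))).g
    (v * Ω1) (c 0 * Ω1) (v * Ω2) (c (2 * k + 2) * Ω2) (c 0 * Ω2)
    (v * Ω3) (c (2 * (2 * k + 2)) * Ω3) (c 0 * Ω3) three_eq_zero
    (prod_central ov o1) (prod_central (oc _) o1) (prod_central ov o2) (prod_central (oc _) o2)
    (prod_central (oc _) o2) (vXv _ _ o1) (vXv _ _ o1) (vXv _ _ o2)
    (swap _ _ _ o1 (oc 0)) (swap _ _ _ o1 (oc 0))
    (by
      have := sym3 (F := F) (V := Fin n → F) u.g (z 0).g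
      rw [← this]; abel)
  have hprod : pr c 0 (3 * (2 * k + 2)) =
      (c 0 * Ω1) * (c (2 * k + 2) * Ω2) * (c (2 * (2 * k + 2)) * Ω3) := by
    have e : 3 * (2 * k + 2) = (2 * k + 2) + ((2 * k + 2) + (2 * k + 2)) := by ring
    have e2 : 2 * k + 2 + (2 * k + 2) = 2 * (2 * k + 2) := by ring
    have a1 := pr_add c 0 (2 * k + 2) ((2 * k + 2) + (2 * k + 2))
    have a2 := pr_add c (2 * k + 2) (2 * k + 2) (2 * k + 2)
    rw [zero_add] at a1
    rw [e, a1, a2, ← mul_assoc, e2]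
    rfl
  rw [g1, g2, g3, g4, g5, g6, hprod, ← K]
  unfold T3
  apply MAlg.ext
  · simp
  · simp
  · simp
  · simp only [MAlg.sub_s, map_sub]

omit [CharP F 3] in
lemma pr_eq_ιMulti (z : ℕ → (Fin n → F)) (s m : ℕ) :
    pr (fun i => ExteriorAlgebra.ι F (z i)) s m =
      ExteriorAlgebra.ιMulti F m (fun i : Fin m => z (s + i)) := by
  induction m generalizing s with
  | zero => rw [pr, ExteriorAlgebra.ιMulti_zero_apply]
  | succ m ih =>
    rw [pr, ih, ExteriorAlgebra.ιMulti_succ_apply]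
    congr 1
    congr 1
    funext i
    simp [Matrix.vecTail, Function.comp, Nat.add_comm, Nat.add_left_comm]

/-- The algebra `A_n`. -/
abbrev An (F : Type u) [Field F] (n : ℕ) : Type u :=
  MAlg (ExteriorAlgebra.ι F : (Fin n → F) →ₗ[F] ExteriorAlgebra F (Fin n → F)) (bint F n)

lemma satisfies_of_ne {k : ℕ} (hn : n ≠ 3 * (2 * k + 2)) :
    Satisfies F (An F n) (fpoly F k) := by
  rw [satisfies_fpoly]
  intro x z
  rw [fval_eq]
  obtain ⟨s, hs⟩ := cube_scalar x.g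
  rw [hs, ← map_add, pr_eq_ιMulti, ← Algebra.smul_def, map_smul, bint_ιMulti_ne (Ne.symm hn), smul_zero]
  rfl

lemma not_satisfies {k : ℕ} (hn : n = 3 * (2 * k + 2)) :
    ¬ Satisfies F (An F n) (fpoly F k) := by
  rw [satisfies_fpoly]
  intro h
  have h' := h ⟨0, 1, 0, 0⟩ (fun i => ⟨if hi : i < n then Pi.single ⟨i, hi⟩ 1 else 0, 0, 0, 0⟩)
  rw [fval_eq] at h'
  have h2 := congrArg MAlg.s h'
  subst hn
  rw [pr_eq_ιMulti] at h2
  simp only [mul_one, MAlg.zero_s, add_mul, one_mul, map_add] at h2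
  rw [bint_ιMulti_self] at h2
  have h4 : (Matrix.of fun i : Fin (3 * (2 * k + 2)) =>
      (if hi : 0 + (i : ℕ) < 3 * (2 * k + 2) then Pi.single ⟨0 + (i : ℕ), hi⟩ (1 : F) else 0 :
        Fin (3 * (2 * k + 2)) → F)) = 1 := by
    ext i j
    have hi : 0 + (i : ℕ) < 3 * (2 * k + 2) := by rw [zero_add]; exact i.2
    simp only [Matrix.of_apply, zero_add, i.2, dif_pos, Fin.eta]
    rw [Matrix.one_apply, Pi.single_apply]
    simp [eq_comm]
  rw [h4, Matrix.det_one] at h2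
  have h3 : (3 : F) = 0 := by
    have := CharP.cast_eq_zero F 3
    simpa using this
  have : (1 : F) = 0 := by linear_combination h3 - h2
  exact one_ne_zero this

end ext

end Pool.Agent.H659
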