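import Mathlib
import Pool.Agent.H659.Key

set_option autoImplicit false

universe u

namespace Pool.Agent.H659

open FreeNonUnitalNonAssocAlgebra

section

variable {F : Type u} [Field F]

/-- polynomial for commutativity -/
noncomputable def commPoly (F : Type u) [Field F] : NAPoly F := of F 0 * of F 1 - of F 1 * of F 0

/-- polynomial for alternativity -/
noncomputable def altPoly (F : Type u) [Field F] : NAPoly F :=
  (of F 0 * of F 0) * of F 1 - of F 0 * (of F 0 * of F 1)

/-- polynomial for solvability of index three -/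
noncomputable def solvPoly (F : Type u) [Field F] : NAPoly F :=
  ((of F 0 * of F 1) * (of F 2 * of F 3)) * ((of F 4 * of F 5) * (of F 6 * of F 7))

variable (A : Type u) [NonUnitalNonAssocRing A] [Module F A] [IsScalarTower F A A]
  [SMulCommClass F A A]

lemma satisfies_comm : Satisfies F A (commPoly F) ↔ ∀ x y : A, x * y = y * x := by
  constructor
  · intro h x y
    have := h (fun i => if i = 0 then x else y)
    simp only [commPoly, map_sub, map_mul, lift_of_apply] at this
    simpa [sub_eq_zero] using this
  · intro h v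
    simp only [commPoly, map_sub, map_mul, lift_of_apply]
    rw [h, sub_self]

lemma satisfies_alt : Satisfies F A (altPoly F) ↔ ∀ x y : A, (x * x) * y = x * (x * y) := by
  constructor
  · intro h x y
    have := h (fun i => if i = 0 then x else y)
    simp only [altPoly, map_sub, map_mul, lift_of_apply] at this
    simpa [sub_eq_zero] using this
  · intro h v
    simp only [altPoly, map_sub, map_mul, lift_of_apply]
    rw [h, sub_self]

lemma satisfies_solv : Satisfies F A (solvPoly F) ↔
    ∀ a b c d e f g h : A, ((a * b) * (c * d)) * ((e * f) * (g * h)) = 0 := by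
  constructor
  · intro hh a b c d e f g h
    have := hh (fun i => match i with
      | 0 => a | 1 => b | 2 => c | 3 => d | 4 => e | 5 => f | 6 => g | _ => h)
    simp only [solvPoly, map_mul, lift_of_apply] at this
    exact this
  · intro h v
    simp only [solvPoly, map_mul, lift_of_apply]
    exact h _ _ _ _ _ _ _ _

lemma span_mul_le {D : Submodule F A} {P : Set A} (hD : D ≤ Submodule.span F P) :
    Submodule.span F {z | ∃ x ∈ D, ∃ y ∈ D, z = x * y} ≤
      Submodule.span F {z | ∃ x ∈ P, ∃ y ∈ P, z = x * y} := by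
  rw [Submodule.span_le]
  rintro z ⟨x, hx, y, hy, rfl⟩
  refine Submodule.span_induction₂ (R := F) (s := P) (t := P)
    (p := fun a b _ _ => a * b ∈ Submodule.span F {z | ∃ x ∈ P, ∃ y ∈ P, z = x * y})
    ?_ ?_ ?_ ?_ ?_ ?_ ?_ (hD hx) (hD hy)
  · intro a b ha hb
    exact Submodule.subset_span ⟨a, ha, b, hb, rfl⟩
  · intro b hb; rw [zero_mul]; exact Submodule.zero_mem _
  · intro a ha; rw [mul_zero]; exact Submodule.zero_mem _
  · intro a b c ha hb hc h1 h2; rw [add_mul]; exact Submodule.add_mem _ h1 h2
  · intro a b c ha hb hc h1 h2; rw [mul_add]; exact Submodule.add_mem _ h1 h2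
  · intro r a b ha hb h; rw [smul_mul_assoc]; exact Submodule.smul_mem _ _ h
  · intro r a b ha hb h; rw [mul_smul_comm]; exact Submodule.smul_mem _ _ h

lemma derivedSeries_three (h : ∀ a b c d e f g h : A,
    ((a * b) * (c * d)) * ((e * f) * (g * h)) = 0) : derivedSeries F A 3 = ⊥ := by
  have h0 : derivedSeries F A 0 ≤ Submodule.span F (Set.univ : Set A) := by
    rw [Submodule.span_univ]; exact le_top
  have h1 := span_mul_le A h0
  have h2 := span_mul_le A h1
  have h3 := span_mul_le A h2
  rw [eq_bot_iff]
  refine le_trans h3 ?_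
  rw [Submodule.span_le]
  rintro z ⟨x, ⟨x1, ⟨a, -, b, -, rfl⟩, x2, ⟨c, -, d, -, rfl⟩, rfl⟩,
    y, ⟨y1, ⟨e, -, f, -, rfl⟩, y2, ⟨g, -, k, -, rfl⟩, rfl⟩, rfl⟩
  rw [h]
  exact Submodule.zero_mem _

end

section An

variable {F : Type u} [Field F] [CharP F 3] {n : ℕ}

omit [CharP F 3] in
lemma an_comm : Satisfies F (An F n) (commPoly F) :=
  (satisfies_comm _).2 MAlg.mul_comm'

lemma an_alt (hn : Even n) : Satisfies F (An F n) (altPoly F) := by
  rw [satisfies_alt]
  intro x y
  have hJ := MAlg.jacobi (good_bint (F := F) hn) x x y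
  have h3 : (3 : F) = 0 := by
    have := CharP.cast_eq_zero F 3
    simpa using this
  have h3' : ∀ w : An F n, w + w + w = 0 := by
    intro w
    have : (3 : F) • w = w + w + w := by
      rw [show (3 : F) = 1 + 1 + 1 by norm_num, add_smul, add_smul, one_smul]
    rw [← this, h3, zero_smul]
  have e1 : (x * y) * x = x * (x * y) := MAlg.mul_comm' _ _
  have e2 : (y * x) * x = x * (x * y) := by rw [MAlg.mul_comm' y x, e1]
  rw [e1, e2] at hJ
  have := h3' (x * (x * y))
  have h4 : (x * x) * y - x * (x * y) = ((x * x) * y + x * (x * y) + x * (x * y)) -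
      (x * (x * y) + x * (x * y) + x * (x * y)) := by abel
  rw [hJ, this, sub_zero] at h4
  exact sub_eq_zero.1 h4

omit [CharP F 3] in
lemma an_solv : Satisfies F (An F n) (solvPoly F) := by
  rw [satisfies_solv]
  intro a b c d e f g h
  apply MAlg.ext
  · rfl
  · simp
  · simp
  · simp

end An

section main

variable (F : Type u) [Field F]

/-- the approximations -/
noncomputable def Sset (j : ℕ) : Set (NAPoly F) :=
  {commPoly F, altPoly F, solvPoly F} ∪ {f | ∃ i < j, f = fpoly F i}

/-- the identities of the variety -/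
noncomputable def Sall : Set (NAPoly F) := ⋃ j, Sset F j

lemma Sset_mono : Monotone (Sset F) := by
  intro i j hij f hf
  rcases hf with hf | ⟨k, hk, rfl⟩
  · exact Or.inl hf
  · exact Or.inr ⟨k, lt_of_lt_of_le hk hij, rfl⟩

/-- Every algebra in the variety is commutative, alternative and solvable of index three. -/
lemma variety_props (A : Type u) [NonUnitalNonAssocRing A] [Module F A] [IsScalarTower F A A]
    [SMulCommClass F A A] (hA : InVariety (Sall F) A) :
    (∀ x y : A, x * y = y * x) ∧ (∀ x y : A, (x * x) * y = x * (x * y)) ∧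
      derivedSeries F A 3 = ⊥ := by
  have h : ∀ f ∈ ({commPoly F, altPoly F, solvPoly F} : Set (NAPoly F)), Satisfies F A f :=
    fun f hf => hA f (Set.mem_iUnion.2 ⟨0, Or.inl hf⟩)
  exact ⟨(satisfies_comm A).1 (h _ (by simp)), (satisfies_alt A).1 (h _ (by simp)),
    derivedSeries_three A ((satisfies_solv A).1 (h _ (by simp)))⟩

theorem Sall_not_finitelyBased [CharP F 3] : ¬ FinitelyBased (Sall F) := by
  refine not_finitelyBased (Sset_mono F) (fun j => An F (3 * (2 * j + 2))) ?_ ?_
  · intro j f hf
    have hn : Even (3 * (2 * j + 2)) := ⟨3 * (j + 1), by ring⟩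
    rcases hf with hf | ⟨i, hi, rfl⟩
    · rcases hf with rfl | rfl | rfl
      · exact an_comm
      · exact an_alt hn
      · exact an_solv
    · exact satisfies_of_ne (by omega)
  · intro j h
    refine not_satisfies (F := F) (n := 3 * (2 * j + 2)) (k := j) rfl ?_
    exact h _ (Set.mem_iUnion.2 ⟨j + 1, Or.inr ⟨j, Nat.lt_succ_self j, rfl⟩⟩)

end main

end Pool.Agent.H659
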